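import Pool.Agent.helper22.GS.SpecT

/-!
# Project gs (MP_561ff4_al): DSC, `B (y v) v` takes all values
-/

set_option autoImplicit false

namespace Pool.Agent.GS

open Module

theorem DSC_field {F : Type} [Field F] [Finite F] (ψ : F ≃+* F) (κ : F) (hκ : ψ κ ≠ κ) (l : ℕ)
    (hl : Odd l) (hψ : ∀ x, (⇑ψ)^[l] x = x) (c : F) :
    ∃ x z : F, (ψ x - x) + (κ * ψ z - ψ κ * z) = c := by
  let F₀ : Subfield F := (ψ : F →+* F).eqLocusField (RingHom.id F)
  let ψ' : F ≃ₐ[F₀] F := AlgEquiv.ofRingEquiv (f := ψ) (fun r => r.2)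
  have hψ' : ∀ x, ψ' x = ψ x := fun _ => rfl
  let L : (F × F) →ₗ[F₀] F := (ψ'.toLinearMap - LinearMap.id).coprod
    ((LinearMap.mulLeft F₀ κ).comp ψ'.toLinearMap - LinearMap.mulLeft F₀ (ψ κ))
  have hL : ∀ x z, L (x, z) = (ψ x - x) + (κ * ψ z - ψ κ * z) := fun _ _ => rfl
  by_contra hcon
  push Not at hcon
  have hlt : LinearMap.range L < ⊤ := by
    rw [lt_top_iff_ne_top]
    intro h
    have h1 : c ∈ LinearMap.range L := by rw [h]; trivial
    obtain ⟨⟨x, z⟩, h2⟩ := h1
    exact hcon x z (by rw [← hL]; exact h2)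
  obtain ⟨f, hf, hfk⟩ := Submodule.exists_le_ker_of_lt_top _ hlt
  have hnd := traceForm_nondegenerate F₀ F
  set a : F := ((Algebra.traceForm F₀ F).toDual hnd).symm f with ha
  have haf : ∀ v, Algebra.trace F₀ F (a * v) = f v := by
    intro v
    exact LinearMap.BilinForm.apply_toDual_symm_apply (B := Algebra.traceForm F₀ F) (hB := hnd) f v
  have ha0 : a ≠ 0 := by
    intro h
    apply hf
    ext v
    rw [← haf v, h, zero_mul, map_zero]
    rfl
  have hzero : ∀ b : F, (∀ x, Algebra.trace F₀ F (b * x) = 0) → b = 0 := by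
    intro b hb
    apply ((Algebra.traceForm F₀ F).toDual hnd).injective
    rw [map_zero]
    ext v
    exact congrArg _ (hb v)
  have hTr : ∀ x, Algebra.trace F₀ F (ψ x) = Algebra.trace F₀ F x := fun x =>
    Algebra.trace_eq_of_algEquiv ψ' x
  have hker : ∀ x z, Algebra.trace F₀ F (a * ((ψ x - x) + (κ * ψ z - ψ κ * z))) = 0 := by
    intro x z
    rw [haf, ← hL]
    exact hfk ⟨(x, z), rfl⟩
  -- `ψ a = a`
  have h1 : ψ.symm a = a := by
    have : ψ.symm a - a = 0 := by
      apply hzero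
      intro x
      have h2 := hker x 0
      simp only [map_zero, mul_zero, sub_zero, add_zero] at h2
      rw [mul_sub, map_sub] at h2
      have h3 : a * ψ x = ψ (ψ.symm a * x) := by rw [map_mul, RingEquiv.apply_symm_apply]
      rw [h3, hTr] at h2
      rw [sub_mul, map_sub]
      exact h2
    exact sub_eq_zero.mp this
  have h4 : a * (ψ.symm κ - ψ κ) = 0 := by
    apply hzero
    intro z
    have h2 := hker 0 z
    simp only [map_zero, sub_zero, zero_add] at h2
    have h3 : a * (κ * ψ z) = ψ (a * (ψ.symm κ * z)) := by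
      rw [map_mul, map_mul, RingEquiv.apply_symm_apply]
      congr 1
      rw [← h1, RingEquiv.apply_symm_apply, h1]
    rw [mul_sub, map_sub, h3, hTr, ← map_sub] at h2
    rw [← h2]
    congr 1
    ring
  have h5 : ψ.symm κ = ψ κ := by
    rcases mul_eq_zero.mp h4 with h | h
    · exact absurd h ha0
    · exact sub_eq_zero.mp h
  have h6 : ψ (ψ κ) = κ := by rw [← h5, RingEquiv.apply_symm_apply]
  obtain ⟨m, hm⟩ := hl
  have h7 : ∀ m : ℕ, (⇑ψ)^[2 * m] κ = κ := by
    intro m
    induction m with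
    | zero => rfl
    | succ m ih =>
      rw [Nat.mul_succ, Function.iterate_add_apply]
      show (⇑ψ)^[2 * m] (ψ (ψ κ)) = κ
      rw [h6, ih]
  have h8 := hψ κ
  rw [hm, Nat.add_comm, Function.iterate_add_apply, h7] at h8
  exact hκ h8

theorem DSC : DSC_stmt := by
  intro F V _ _ _ _ B hB y ψ ν hy hne l hlp hl2 hψ hD c
  obtain ⟨lam, μ, e, f, hlam, hμ, hfix, hBB⟩ := hD
  obtain ⟨κ, hκ⟩ := hne
  obtain ⟨x, z, hxz⟩ := DSC_field ψ κ hκ l (hlp.odd_of_ne_two hl2) hψ (lam * c / μ)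
  have h1 : ∀ i, y (e i) = lam⁻¹ • e i := fun i => by
    rw [← (hfix i).1, smul_smul, inv_mul_cancel₀ hlam, one_smul, (hfix i).1]
  have h2 : ∀ i, y (f i) = lam⁻¹ • f i := fun i => by
    rw [← (hfix i).2, smul_smul, inv_mul_cancel₀ hlam, one_smul, (hfix i).2]
  refine ⟨x • e 0 + f 0 + z • e 1 + κ • f 1, ?_⟩
  rw [hy.add, hy.add, hy.add, hy.smul, hy.smul, hy.smul, h1, h1, h2, h2]
  have hee : ∀ i j, B (e i) (e j) = 0 := fun i j => (hBB i j).1
  have hff : ∀ i j, B (f i) (f j) = 0 := fun i j => (hBB i j).2.1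
  have hef : ∀ i j, B (e i) (f j) = if i = j then μ else 0 := fun i j => (hBB i j).2.2
  have hfe : ∀ i j, B (f i) (e j) = -(if j = i then μ else 0) := fun i j => by
    rw [hB.neg, hef]
  simp only [map_add, map_smul, LinearMap.add_apply, LinearMap.smul_apply, smul_eq_mul, hee, hff,
    hef, hfe]
  simp only [Fin.isValue, if_true, zero_ne_one, one_ne_zero, if_false]
  rw [eq_div_iff hμ] at hxz
  field_simp
  linear_combination hxz

end Pool.Agent.GS
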